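import Mathlib
import Pool.Agent.J4.H24.WS.Sigma
import Pool.Agent.J4.H24.WS.Dim

/-!
# The growth exponents of Weyl sums

For every `d ≥ 2` and every `α` with `2/3 < α < 1` the set `Ω_α` of the points of `[0,1)^d` at which
the Weyl sums have the growth exponent `α` has positive Hausdorff dimension, at least
`((1 - α)/(2 - α))^2`.  So for every `d ≥ 2` the set `A = (2/3, 1)` of positive measure consists of
exponents `α` with `dim Ω_α > 0`.

The points used are `(0, x, 0, ..., 0)`, where `x` is close to fractions with denominators `9^n` and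
has the irrationality exponent `τ = 1/(1 - α)` (also with respect to all other denominators).
-/

set_option autoImplicit false

namespace Pool.Agent.Results.MP_3c4aa6_nt.WeylExponents

open Finset Filter

/-- The Weyl sum `∑_{n=1}^N exp (2 π i (x_1 n + x_2 n^2 + ... + x_d n^d))`; the coordinate `x_j` is
`x (j - 1)`. -/
noncomputable def S {d : ℕ} (x : EuclideanSpace ℝ (Fin d)) (N : ℕ) : ℂ :=
  ∑ n ∈ Icc 1 N,
    Complex.exp (2 * Real.pi * Complex.I * ((∑ j : Fin d, x j * (n : ℝ) ^ ((j : ℕ) + 1) : ℝ) : ℂ))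

/-- The growth exponent `σ(x) = limsup log |S(x; N)| / log N` (with `log 0 = -∞`). -/
noncomputable def sigma {d : ℕ} (x : EuclideanSpace ℝ (Fin d)) : EReal :=
  limsup (fun N : ℕ => ENNReal.log ‖S x N‖ₑ / ((Real.log N : ℝ) : EReal)) atTop

/-- `Ω_α`, the set of the points of `[0,1)^d` with growth exponent `α`. -/
def Omega (d : ℕ) (α : ℝ) : Set (EuclideanSpace ℝ (Fin d)) :=
  {x | (∀ j, x j ∈ Set.Ico (0 : ℝ) 1) ∧ sigma x = (α : EReal)}

open Pool.Agent.J4.H24.WS

lemma S_single {d : ℕ} (hd : 2 ≤ d) (x : ℝ) (N : ℕ) :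
    S (EuclideanSpace.single (⟨1, by omega⟩ : Fin d) x) N = Sq x N := by
  have h1 : ∀ n : ℕ, (∑ j : Fin d, (EuclideanSpace.single (⟨1, by omega⟩ : Fin d) x : EuclideanSpace ℝ (Fin d)) j *
      (n : ℝ) ^ ((j : ℕ) + 1) : ℝ) = x * (n : ℝ) ^ 2 := by
    intro n
    rw [Finset.sum_eq_single (⟨1, by omega⟩ : Fin d)]
    · rw [PiLp.single_apply, if_pos rfl]
    · intro j _ hj
      rw [PiLp.single_apply, if_neg hj, zero_mul]
    · intro h; exact absurd (Finset.mem_univ _) h
  unfold S Sq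
  induction N with
  | zero => simp
  | succ N ih =>
    rw [Finset.sum_Icc_succ_top (by omega), ih, Finset.sum_range_succ, h1]
    congr 1
    unfold Pool.Agent.Helper602.MK.ee
    congr 1
    push_cast
    ring

lemma mem_Omega {d : ℕ} (hd : 2 ≤ d) (τ : ℝ) (hτ : 3 < τ) (y : ℝ) (hy : y ∈ Set.Ico (0 : ℝ) 1) :
    EuclideanSpace.single (⟨1, by omega⟩ : Fin d) (XX τ y) ∈ Omega d (1 - 1 / τ) := by
  constructor
  · intro j
    rw [PiLp.single_apply]
    split_ifs
    · exact XX_mem hτ.le y hy.1 hy.2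
    · exact ⟨le_rfl, one_pos⟩
  · unfold sigma
    apply sigma_eq
    · intro s hs
      have := family_upper τ hτ.le y hy.1 hy.2 s hs
      filter_upwards [this] with N hN
      rw [S_single hd]; exact hN
    · intro s hs
      have := family_lower τ hτ y hy.1 hy.2 s hs
      refine this.mono fun N hN => ?_
      rw [S_single hd]; exact hN

theorem dim_lower (d : ℕ) (hd : 2 ≤ d) (α : ℝ) (h1 : 2 / 3 < α) (h2 : α < 1) :
    ENNReal.ofReal (((1 - α) / (2 - α)) ^ 2) ≤ dimH (Omega d α) := by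
  set τ : ℝ := 1 / (1 - α) with hτ
  have ha : 0 < 1 - α := by linarith
  have hτ3 : 3 < τ := by
    rw [hτ, lt_div_iff₀ ha]; linarith
  have hα : 1 - 1 / τ = α := by rw [hτ, one_div_one_div]; ring
  have hdim := dim_family τ hτ3.le
  have hiso : Isometry (fun t : ℝ => (EuclideanSpace.single (⟨1, by omega⟩ : Fin d) t :
      EuclideanSpace ℝ (Fin d))) :=
    Isometry.of_dist_eq fun s t => PiLp.dist_single_same _ _ _ _ _
  have hsub : (fun t : ℝ => (EuclideanSpace.single (⟨1, by omega⟩ : Fin d) t :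
      EuclideanSpace ℝ (Fin d))) '' (XX τ '' Set.Ico 0 1) ⊆ Omega d α := by
    rintro _ ⟨_, ⟨y, hy, rfl⟩, rfl⟩
    have := mem_Omega hd τ hτ3 y hy
    rw [hα] at this
    exact this
  have h3 := dimH_mono hsub
  rw [hiso.dimH_image] at h3
  refine le_trans (le_trans (le_of_eq ?_) hdim) h3
  congr 1
  have h4 : 0 < 2 - α := by linarith
  rw [hτ]
  field_simp
  ring

/-- **Weyl sums with prescribed growth exponents.** For every `d ≥ 2` there is a set `A ⊆ [0,1]` of
positive Lebesgue measure with `dim Ω_α > 0` for all `α ∈ A`; more precisely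
`dim Ω_α ≥ ((1 - α)/(2 - α))^2` for all `α` with `2/3 < α < 1`. -/
theorem result (d : ℕ) (hd : 2 ≤ d) :
    (∃ A : Set ℝ, A ⊆ Set.Icc 0 1 ∧ 0 < MeasureTheory.volume A ∧
      ∀ α ∈ A, 0 < dimH (Omega d α)) ∧
    ∀ α : ℝ, 2 / 3 < α → α < 1 →
      ENNReal.ofReal (((1 - α) / (2 - α)) ^ 2) ≤ dimH (Omega d α) := by
  refine ⟨⟨Set.Ioo (2 / 3) 1, ?_, ?_, ?_⟩, fun α h1 h2 => dim_lower d hd α h1 h2⟩
  · intro α hα
    exact ⟨by linarith [hα.1], hα.2.le⟩
  · rw [Real.volume_Ioo]
    norm_num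
  · intro α hα
    refine lt_of_lt_of_le ?_ (dim_lower d hd α hα.1 hα.2)
    rw [ENNReal.ofReal_pos]
    have h1 : 0 < 1 - α := by linarith [hα.2]
    have h2 : 0 < 2 - α := by linarith [hα.2]
    positivity

end Pool.Agent.Results.MP_3c4aa6_nt.WeylExponents
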